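import Mathlib
import Pool.Agent.X238.Fib.Comp

set_option autoImplicit false

/-!
# Being a fiber product is decidable for f.g. subdirect products of two free semigroups

`S ≤ A⁺ × B⁺` (subdirect) is a fiber product iff `(u,v), (u',v), (u',v') ∈ S` imply `(u,v') ∈ S`.
If `S` is generated by the finite set `X`, this closure property follows from finitely many
instances of it: for `(g, r) ∈ X` and `(g, r') ∈ S` call `r → r'` and `r' → r` rules. It is enough
that for every rule `r → r'` and every product `(p, x r y)` of at most `|r| + 1` generators the pair
`(p, x r' y)` is in `S`: then second components may be changed by rules inside every element of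
`S` (only the at most `|r|` generators touching the factor `r` matter), and every zigzag can be
resolved by a sequence of such changes, since all letters are components of generators.
-/

namespace Pool.Agent.Results.MP_b63848_al.FiberProductDecidable

open Pool.Agent.X238.Fib

/-- The set of all `(a, b, X)` such that `X` is a finite list of pairs in `A⁺ × B⁺`
(`A = Fin a`, `B = Fin b`) whose generated subsemigroup is a subdirect product of `A⁺` and `B⁺`
and is a fiber product, is primitive recursive. In particular there is an algorithm that decides
whether the subdirect product generated by a given finite set of pairs is a fiber product. -/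
theorem result :
    PrimrecPred (fun i : ℕ × ℕ × List (List ℕ × List ℕ) =>
      WF i.1 i.2.1 i.2.2 ∧ IsSubdirect (semi i.1 i.2.1 i.2.2) ∧ IsFiber (semi i.1 i.2.1 i.2.2)) ∧
    ∃ f : ℕ × ℕ × List (List ℕ × List ℕ) → Bool, Computable f ∧
      ∀ (a b : ℕ) (X : List (List ℕ × List ℕ)), WF a b X → IsSubdirect (semi a b X) →
        (f (a, b, X) = true ↔ IsFiber (semi a b X)) := by
  refine ⟨prim_main, ?_⟩
  obtain ⟨hd, hp⟩ := prim_main
  refine ⟨_, hp.to_comp, ?_⟩
  intro a b X h1 h2
  simp only [decide_eq_true_eq]
  exact ⟨fun h => h.2.2, fun h => ⟨h1, h2, h⟩⟩

end Pool.Agent.Results.MP_b63848_al.FiberProductDecidable
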